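import Pool.Agent.T9h54.LZ.Spec
import Pool.Agent.Helper112.MultLS
import Pool.Agent.Helper112.Arith
import Pool.Agent.H370R2.DirGood
import Pool.Agent.H38R2.CG.PV

/-!
# Project LZ, piece E1: few primitive characters have an L-function which vanishes at a given point
-/

set_option autoImplicit false

namespace Pool.Agent.T9h85.LZ

open Finset MeasureTheory Pool.Agent.T9h54.LZ

/-- partial sums at a zero -/
theorem psum {q : ℕ} [NeZero q] {χ : DirichletCharacter ℂ q} (hχ : χ ≠ 1) {ρ : ℂ} (hρ : 0 < ρ.re)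
    {B : ℝ} (hB : ∀ n : ℕ, ‖∑ k ∈ Icc 1 n, χ (k : ZMod q)‖ ≤ B)
    (h0 : DirichletCharacter.LFunction χ ρ = 0) {N : ℕ} (hN : 1 ≤ N) :
    ‖∑ n ∈ Icc 1 N, χ (n : ZMod q) * (n : ℂ) ^ (-ρ)‖ ≤
      (1 + ‖ρ‖ / ρ.re) * B * (N : ℝ) ^ (-ρ.re) := by
  have hB0 : 0 ≤ B := (norm_nonneg _).trans (hB 0)
  have hρ0 : ρ ≠ 0 := by
    intro h
    rw [h] at hρ
    simp at hρ
  have hN0 : (0 : ℝ) < N := by exact_mod_cast hN
  have hN1 : (1 : ℝ) ≤ N := by exact_mod_cast hN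
  let A : ℝ → ℂ := fun u => ∑ k ∈ Icc 1 ⌊u⌋₊, χ (k : ZMod q)
  have hA : ∀ u, ‖A u‖ ≤ B := fun u => hB _
  have hmeas : Measurable A :=
    (measurable_from_nat (f := fun n : ℕ => ∑ k ∈ Finset.Icc 1 n, χ (k : ZMod q))).comp
      Nat.measurable_floor
  have hL := H370.DL.L_integral hχ hρ
  rw [h0] at hL
  have hJ0 : ∫ u in Set.Ioi (1 : ℝ), A u * (u : ℂ) ^ (-ρ - 1) = 0 := by
    rcases mul_eq_zero.1 hL.symm with h | h
    · exact absurd h hρ0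
    · exact h
  have hre : (-ρ - 1).re = -ρ.re - 1 := by simp
  -- integrability
  have hint : IntegrableOn (fun u : ℝ => A u * (u : ℂ) ^ (-ρ - 1)) (Set.Ioi 1) := by
    have h1 : IntegrableOn (fun u : ℝ => B * u ^ (-ρ.re - 1)) (Set.Ioi 1) :=
      (integrableOn_Ioi_rpow_of_lt (by linarith) zero_lt_one).const_mul B
    refine Integrable.mono' h1 ?_ ?_
    · apply AEStronglyMeasurable.mul hmeas.aestronglyMeasurable
      apply ContinuousOn.aestronglyMeasurable _ measurableSet_Ioi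
      intro u hu
      have hu0 : (0 : ℝ) < u := lt_trans one_pos hu
      apply ContinuousAt.continuousWithinAt
      exact (Complex.continuousAt_ofReal_cpow_const _ _ (Or.inr hu0.ne'))
    · refine (ae_restrict_iff' measurableSet_Ioi).mpr (Filter.Eventually.of_forall fun u hu => ?_)
      have hu0 : (0 : ℝ) < u := lt_trans one_pos hu
      rw [norm_mul, Complex.norm_cpow_eq_rpow_re_of_pos hu0, hre]
      exact mul_le_mul_of_nonneg_right (hA u) (by positivity)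
  have hsplit : ∫ u in Set.Ioi (1 : ℝ), A u * (u : ℂ) ^ (-ρ - 1) =
      (∫ u in Set.Ioc (1 : ℝ) N, A u * (u : ℂ) ^ (-ρ - 1)) +
        ∫ u in Set.Ioi (N : ℝ), A u * (u : ℂ) ^ (-ρ - 1) := by
    rw [← Set.Ioc_union_Ioi_eq_Ioi hN1]
    apply setIntegral_union
    · exact Set.Ioc_disjoint_Ioi le_rfl
    · exact measurableSet_Ioi
    · exact hint.mono_set Set.Ioc_subset_Ioi_self
    · exact hint.mono_set (Set.Ioi_subset_Ioi hN1)
  have htail : ‖∫ u in Set.Ioi (N : ℝ), A u * (u : ℂ) ^ (-ρ - 1)‖ ≤ B * ((N : ℝ) ^ (-ρ.re) / ρ.re) := by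
    have h1 : ∫ u in Set.Ioi (N : ℝ), B * u ^ (-ρ.re - 1) = B * ((N : ℝ) ^ (-ρ.re) / ρ.re) := by
      rw [integral_const_mul, integral_Ioi_rpow_of_lt (by linarith) hN0]
      rw [show -ρ.re - 1 + 1 = -ρ.re by ring]
      have : ρ.re ≠ 0 := hρ.ne'
      field_simp
    rw [← h1]
    refine norm_integral_le_of_norm_le ?_ ?_
    · exact (integrableOn_Ioi_rpow_of_lt (by linarith) hN0).const_mul B
    · refine (ae_restrict_iff' measurableSet_Ioi).mpr (Filter.Eventually.of_forall fun u hu => ?_)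
      have hu0 : (0 : ℝ) < u := lt_trans hN0 hu
      rw [norm_mul, Complex.norm_cpow_eq_rpow_re_of_pos hu0, hre]
      exact mul_le_mul_of_nonneg_right (hA u) (by positivity)
  -- Abel summation
  let c : ℕ → ℂ := fun n => if n = 0 then 0 else χ (n : ZMod q)
  have hc : ∀ n : ℕ, ∑ k ∈ Icc 0 n, c k = ∑ k ∈ Icc 1 n, χ (k : ZMod q) := by
    intro n
    have h1 : Icc 0 n = insert 0 (Icc 1 n) := by
      ext k; simp; omega
    rw [h1, sum_insert (by simp)]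
    simp only [c, if_true, zero_add]
    refine sum_congr rfl fun k hk => ?_
    rw [mem_Icc] at hk
    rw [if_neg (by omega)]
  have hder : ∀ t : ℝ, 0 < t → HasDerivAt (fun t : ℝ => (t : ℂ) ^ (-ρ)) (-ρ * (t : ℂ) ^ (-ρ - 1)) t := by
    intro t ht
    have h1 : HasDerivAt (fun z : ℂ => z ^ (-ρ)) (-ρ * (t : ℂ) ^ (-ρ - 1)) (t : ℂ) := by
      have := (hasDerivAt_id (t : ℂ)).cpow_const (c := -ρ)
        (Or.inl (by simpa using ht))
      simpa using this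
    exact h1.comp_ofReal
  have habel := sum_mul_eq_sub_integral_mul₀ c (f := fun t : ℝ => (t : ℂ) ^ (-ρ)) (by simp [c]) (N : ℝ)
    (fun t ht => (hder t (lt_of_lt_of_le one_pos ht.1)).differentiableAt) (by
      have h1 : IntegrableOn (fun t : ℝ => -ρ * (t : ℂ) ^ (-ρ - 1)) (Set.Icc 1 (N : ℝ)) := by
        apply ContinuousOn.integrableOn_Icc
        intro u hu
        have hu0 : (0 : ℝ) < u := lt_of_lt_of_le one_pos hu.1
        apply ContinuousAt.continuousWithinAt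
        exact continuousAt_const.mul (Complex.continuousAt_ofReal_cpow_const _ _ (Or.inr hu0.ne'))
      refine h1.congr_fun (fun t ht => ?_) measurableSet_Icc
      exact ((hder t (lt_of_lt_of_le one_pos ht.1)).deriv).symm)
  rw [Nat.floor_natCast, hc] at habel
  have hlhs : ∑ k ∈ Icc 0 N, ((k : ℝ) : ℂ) ^ (-ρ) * c k =
      ∑ n ∈ Icc 1 N, χ (n : ZMod q) * (n : ℂ) ^ (-ρ) := by
    have h1 : Icc 0 N = insert 0 (Icc 1 N) := by
      ext k; simp; omega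
    rw [h1, sum_insert (by simp)]
    simp only [c, if_true, mul_zero, zero_add]
    refine sum_congr rfl fun k hk => ?_
    rw [mem_Icc] at hk
    rw [if_neg (by omega), mul_comm]
    simp
  have hrhs : ∫ t in Set.Ioc (1 : ℝ) N, deriv (fun t : ℝ => (t : ℂ) ^ (-ρ)) t * ∑ k ∈ Icc 0 ⌊t⌋₊, c k =
      -ρ * ∫ u in Set.Ioc (1 : ℝ) N, A u * (u : ℂ) ^ (-ρ - 1) := by
    rw [← integral_const_mul]
    apply setIntegral_congr_fun measurableSet_Ioc
    intro t ht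
    show deriv (fun t : ℝ => (t : ℂ) ^ (-ρ)) t * ∑ k ∈ Icc 0 ⌊t⌋₊, c k = -ρ * (A t * (t : ℂ) ^ (-ρ - 1))
    rw [(hder t (lt_trans one_pos ht.1)).deriv, hc]
    show _ * A t = _
    ring
  rw [hlhs, hrhs] at habel
  have hfin : ∑ n ∈ Icc 1 N, χ (n : ZMod q) * (n : ℂ) ^ (-ρ) =
      ((N : ℝ) : ℂ) ^ (-ρ) * (∑ k ∈ Icc 1 N, χ (k : ZMod q)) -
        ρ * ∫ u in Set.Ioi (N : ℝ), A u * (u : ℂ) ^ (-ρ - 1) := by
    rw [habel]
    have h1 : (∫ u in Set.Ioc (1 : ℝ) N, A u * (u : ℂ) ^ (-ρ - 1)) =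
        - ∫ u in Set.Ioi (N : ℝ), A u * (u : ℂ) ^ (-ρ - 1) := by
      rw [hJ0] at hsplit
      exact eq_neg_of_add_eq_zero_left hsplit.symm
    rw [h1]
    ring
  rw [hfin]
  refine (norm_sub_le _ _).trans ?_
  rw [norm_mul, norm_mul, Complex.norm_cpow_eq_rpow_re_of_pos hN0]
  have e1 : (-ρ).re = -ρ.re := by simp
  rw [e1]
  have h2 := mul_le_mul_of_nonneg_left (hB N) (by positivity : (0 : ℝ) ≤ (N : ℝ) ^ (-ρ.re))
  have h3 := mul_le_mul_of_nonneg_left htail (norm_nonneg ρ)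
  calc (N : ℝ) ^ (-ρ.re) * ‖∑ k ∈ Icc 1 N, χ (k : ZMod q)‖ +
      ‖ρ‖ * ‖∫ u in Set.Ioi (N : ℝ), A u * (u : ℂ) ^ (-ρ - 1)‖ ≤
      (N : ℝ) ^ (-ρ.re) * B + ‖ρ‖ * (B * ((N : ℝ) ^ (-ρ.re) / ρ.re)) := add_le_add h2 h3
    _ = (1 + ‖ρ‖ / ρ.re) * B * (N : ℝ) ^ (-ρ.re) := by ring

/-! ### the coefficients of the product -/

/-- the coefficients of `(∑_{n ≤ N} n^(-s)) (∑_{d ≤ N} μ(d) d^(-s))` -/
noncomputable def aa (N m : ℕ) : ℤ :=
  ∑ p ∈ (Icc 1 N ×ˢ Icc 1 N).filter (fun p => p.1 * p.2 = m), ArithmeticFunction.moebius p.2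

theorem aa_eq {N m : ℕ} (hm : 1 ≤ m) (hmN : m ≤ N) : aa N m = if m = 1 then 1 else 0 := by
  have h1 : (Icc 1 N ×ˢ Icc 1 N).filter (fun p => p.1 * p.2 = m) = m.divisorsAntidiagonal := by
    ext ⟨a, b⟩
    simp only [mem_filter, mem_product, mem_Icc, Nat.mem_divisorsAntidiagonal]
    constructor
    · rintro ⟨-, h⟩
      exact ⟨h, by omega⟩
    · rintro ⟨h, -⟩
      have ha : 1 ≤ a := Nat.pos_of_ne_zero (by rintro rfl; omega)
      have hb : 1 ≤ b := Nat.pos_of_ne_zero (by rintro rfl; omega)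
      refine ⟨⟨⟨ha, ?_⟩, hb, ?_⟩, h⟩
      · nlinarith
      · nlinarith
  unfold aa
  rw [h1]
  have h2 := congrArg (fun F : ArithmeticFunction ℤ => F m) ArithmeticFunction.coe_zeta_mul_moebius
  simp only [ArithmeticFunction.mul_apply, ArithmeticFunction.one_apply] at h2
  rw [← h2]
  refine sum_congr rfl fun p hp => ?_
  have hp1 : p.1 ≠ 0 := by
    rw [Nat.mem_divisorsAntidiagonal] at hp
    rintro h
    apply hp.2
    rw [← hp.1, h, zero_mul]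
  simp [ArithmeticFunction.zeta_apply, hp1]

theorem aa_le {N m : ℕ} (hm : 1 ≤ m) : |aa N m| ≤ (m.divisors.card : ℤ) := by
  unfold aa
  refine (abs_sum_le_sum_abs _ _).trans ?_
  calc ∑ p ∈ (Icc 1 N ×ˢ Icc 1 N).filter (fun p => p.1 * p.2 = m), |ArithmeticFunction.moebius p.2|
      ≤ ∑ p ∈ (Icc 1 N ×ˢ Icc 1 N).filter (fun p => p.1 * p.2 = m), (1 : ℤ) :=
        sum_le_sum fun p _ => ArithmeticFunction.abs_moebius_le_one
    _ = (((Icc 1 N ×ˢ Icc 1 N).filter (fun p => p.1 * p.2 = m)).card : ℤ) := by simp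
    _ ≤ (m.divisors.card : ℤ) := by
        norm_cast
        apply card_le_card_of_injOn (fun p => p.1)
        · rintro ⟨a, b⟩ h
          rw [mem_coe, mem_filter] at h
          rw [mem_coe, Nat.mem_divisors]
          exact ⟨⟨b, h.2.symm⟩, by omega⟩
        · rintro ⟨a, b⟩ h ⟨a', b'⟩ h' hab
          rw [mem_coe, mem_filter] at h h'
          simp only at hab h h'
          subst hab
          have ha : 0 < a := Nat.pos_of_ne_zero (by rintro rfl; omega)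
          have : b = b' := Nat.eq_of_mul_eq_mul_left ha (h.2.trans h'.2.symm)
          rw [this]

theorem prod_eq {q : ℕ} (χ : DirichletCharacter ℂ q) (ρ : ℂ) (N : ℕ) :
    (∑ n ∈ Icc 1 N, χ (n : ZMod q) * (n : ℂ) ^ (-ρ)) *
      (∑ d ∈ Icc 1 N, (ArithmeticFunction.moebius d : ℂ) * χ (d : ZMod q) * (d : ℂ) ^ (-ρ)) =
      ∑ m ∈ Icc 1 (N * N), ((aa N m : ℂ) * (m : ℂ) ^ (-ρ)) * χ (m : ZMod q) := by
  rw [sum_mul_sum, ← sum_product']
  rw [← sum_fiberwise_of_maps_to (s := Icc 1 N ×ˢ Icc 1 N) (t := Icc 1 (N * N))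
    (g := fun p => p.1 * p.2)]
  · refine sum_congr rfl fun m _ => ?_
    unfold aa
    push_cast
    rw [sum_mul, sum_mul]
    refine sum_congr rfl fun p hp => ?_
    rw [mem_filter] at hp
    rw [← hp.2, Nat.cast_mul, Complex.natCast_mul_natCast_cpow]
    push_cast
    rw [map_mul]
    ring
  · rintro ⟨a, b⟩ h
    simp only [mem_product, mem_Icc] at h ⊢
    exact ⟨Nat.mul_pos h.1.1 h.2.1, Nat.mul_le_mul h.1.2 h.2.2⟩

/-- the sum of `d ^ (-β)` -/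
theorem sum_rpow {β : ℝ} (h0 : 0 < β) (h1 : β < 1) (N : ℕ) :
    ∑ d ∈ Icc 1 N, (d : ℝ) ^ (-β) ≤ (N : ℝ) ^ (1 - β) / (1 - β) := by
  have hb : 0 < 1 - β := by linarith
  induction N with
  | zero => simp [Real.zero_rpow hb.ne']
  | succ N ih =>
    rw [sum_Icc_succ_top (by omega)]
    have hN : (0 : ℝ) < (N : ℝ) + 1 := by positivity
    have h2 : (N : ℝ) ^ (1 - β) ≤ ((N : ℝ) + 1) ^ (1 - β) * (1 + (1 - β) * (-(1 / ((N : ℝ) + 1)))) := by
      have h3 := rpow_one_add_le_one_add_mul_self (s := -(1 / ((N : ℝ) + 1))) (by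
        rw [neg_le_neg_iff, div_le_one hN]
        linarith [(Nat.cast_nonneg N : (0 : ℝ) ≤ N)]) hb.le (by linarith)
      have h4 : (N : ℝ) = ((N : ℝ) + 1) * (1 + -(1 / ((N : ℝ) + 1))) := by
        field_simp
        ring
      calc (N : ℝ) ^ (1 - β) = (((N : ℝ) + 1) * (1 + -(1 / ((N : ℝ) + 1)))) ^ (1 - β) := by rw [← h4]
        _ = ((N : ℝ) + 1) ^ (1 - β) * (1 + -(1 / ((N : ℝ) + 1))) ^ (1 - β) := by
            apply Real.mul_rpow hN.le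
            have : 1 / ((N : ℝ) + 1) ≤ 1 := by
              rw [div_le_one hN]
              linarith [(Nat.cast_nonneg N : (0 : ℝ) ≤ N)]
            linarith
        _ ≤ _ := mul_le_mul_of_nonneg_left h3 (by positivity)
    have h5 : ((N : ℝ) + 1) ^ (1 - β) * (1 / ((N : ℝ) + 1)) = ((N : ℝ) + 1) ^ (-β) := by
      rw [show (-β) = (1 - β) - 1 by ring, Real.rpow_sub_one hN.ne']
      ring
    have h6 : (N : ℝ) ^ (1 - β) ≤ ((N : ℝ) + 1) ^ (1 - β) - (1 - β) * ((N : ℝ) + 1) ^ (-β) := by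
      rw [← h5]
      linarith
    push_cast
    have h7 : (N : ℝ) ^ (1 - β) / (1 - β) + ((N : ℝ) + 1) ^ (-β) ≤
        ((N : ℝ) + 1) ^ (1 - β) / (1 - β) := by
      rw [div_add' _ _ _ hb.ne', div_le_div_iff_of_pos_right hb]
      linarith
    linarith

/-- a zero is detected by the coefficients between `N` and `N ^ 2` -/
theorem detect {q : ℕ} [NeZero q] {χ : DirichletCharacter ℂ q} (hχ : χ ≠ 1) {ρ : ℂ}
    (hρ : 0 < ρ.re) (hρ1 : ρ.re < 1)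
    {B : ℝ} (hB : ∀ n : ℕ, ‖∑ k ∈ Icc 1 n, χ (k : ZMod q)‖ ≤ B)
    (h0 : DirichletCharacter.LFunction χ ρ = 0) {N : ℕ} (hN : 1 ≤ N)
    (hsmall : (1 + ‖ρ‖ / ρ.re) * B * (N : ℝ) ^ (-ρ.re) * ((N : ℝ) ^ (1 - ρ.re) / (1 - ρ.re)) ≤ 1 / 2) :
    1 / 2 ≤ ‖∑ m ∈ Ioc N (N * N), ((aa N m : ℂ) * (m : ℂ) ^ (-ρ)) * χ (m : ZMod q)‖ := by
  have h1 := psum hχ hρ hB h0 hN
  have h2 : ‖∑ d ∈ Icc 1 N, (ArithmeticFunction.moebius d : ℂ) * χ (d : ZMod q) * (d : ℂ) ^ (-ρ)‖ ≤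
      (N : ℝ) ^ (1 - ρ.re) / (1 - ρ.re) := by
    refine (norm_sum_le _ _).trans (le_trans (sum_le_sum fun d hd => ?_) (sum_rpow hρ hρ1 N))
    rw [mem_Icc] at hd
    have hd0 : 0 < d := hd.1
    rw [norm_mul, norm_mul, Complex.norm_natCast_cpow_of_pos hd0]
    have e1 : ‖(ArithmeticFunction.moebius d : ℂ)‖ ≤ 1 := by
      rw [Complex.norm_intCast]
      exact_mod_cast ArithmeticFunction.abs_moebius_le_one
    have e2 := DirichletCharacter.norm_le_one χ (d : ZMod q)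
    have e3 : (-ρ).re = -ρ.re := by simp
    rw [e3]
    have e4 : ‖(ArithmeticFunction.moebius d : ℂ)‖ * ‖χ (d : ZMod q)‖ ≤ 1 :=
      mul_le_one₀ e1 (norm_nonneg _) e2
    have e5 : 0 ≤ (d : ℝ) ^ (-ρ.re) := by positivity
    nlinarith
  have h3 := prod_eq χ ρ N
  have h4 : Icc 1 (N * N) = insert 1 (Ioc 1 (N * N)) := by
    ext k
    have : 1 ≤ N * N := Nat.mul_pos hN hN
    simp only [mem_Icc, mem_insert, mem_Ioc]
    omega
  have h5 : ∑ m ∈ Icc 1 (N * N), ((aa N m : ℂ) * (m : ℂ) ^ (-ρ)) * χ (m : ZMod q) =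
      1 + ∑ m ∈ Ioc N (N * N), ((aa N m : ℂ) * (m : ℂ) ^ (-ρ)) * χ (m : ZMod q) := by
    rw [h4, sum_insert (by simp), ← sum_Ioc_consecutive _ hN (Nat.le_mul_self N)]
    have e1 : ∑ m ∈ Ioc 1 N, ((aa N m : ℂ) * (m : ℂ) ^ (-ρ)) * χ (m : ZMod q) = 0 := by
      apply sum_eq_zero
      intro m hm
      rw [mem_Ioc] at hm
      rw [aa_eq (by omega) hm.2, if_neg (by omega)]
      simp
    rw [e1, zero_add, aa_eq le_rfl hN]
    simp
  rw [h5] at h3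
  have h6 : ‖1 + ∑ m ∈ Ioc N (N * N), ((aa N m : ℂ) * (m : ℂ) ^ (-ρ)) * χ (m : ZMod q)‖ ≤ 1 / 2 := by
    rw [← h3, norm_mul]
    refine le_trans (mul_le_mul h1 h2 (norm_nonneg _) ?_) hsmall
    exact (norm_nonneg _).trans h1
  have h7 := norm_sub_norm_le (1 : ℂ)
    (-∑ m ∈ Ioc N (N * N), ((aa N m : ℂ) * (m : ℂ) ^ (-ρ)) * χ (m : ZMod q))
  rw [sub_neg_eq_add, norm_neg, norm_one] at h7
  linarith

/-! ### the large sieve -/

theorem dyadic (F : ℕ → ℂ) (K J : ℕ) : ∑ m ∈ Ioc (2 ^ K) (2 ^ (K + J)), F m =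
    ∑ j ∈ range J, ∑ m ∈ Ioc (2 ^ (K + j)) (2 ^ (K + j + 1)), F m := by
  induction J with
  | zero => simp
  | succ J ih =>
    rw [sum_range_succ, ← ih]
    exact (sum_Ioc_consecutive _ (Nat.pow_le_pow_right (by norm_num) (by omega))
      (Nat.pow_le_pow_right (by norm_num) (by omega))).symm

/-- the coefficients in a dyadic block -/
noncomputable def blk (N : ℕ) (ρ : ℂ) (M m : ℕ) : ℂ :=
  if m ∈ Ioc M (2 * M) then (aa N m : ℂ) * (m : ℂ) ^ (-ρ) else 0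

theorem blk_sum (N : ℕ) (ρ : ℂ) (M : ℕ) (F : ℕ → ℂ) :
    ∑ m ∈ Ioc M (2 * M), ((aa N m : ℂ) * (m : ℂ) ^ (-ρ)) * F m =
      ∑ m ∈ Icc 1 (2 * M), blk N ρ M m * F m := by
  have h1 : Ioc M (2 * M) ⊆ Icc 1 (2 * M) := by
    intro m hm
    rw [mem_Ioc] at hm
    rw [mem_Icc]
    omega
  rw [← sum_subset h1]
  · refine sum_congr rfl fun m hm => ?_
    rw [blk, if_pos hm]
  · intro m _ hm
    rw [blk, if_neg hm, zero_mul]

theorem blk_sq (N : ℕ) (ρ : ℂ) (M : ℕ) :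
    ∑ m ∈ Icc 1 (2 * M), ‖blk N ρ M m‖ ^ 2 =
      ∑ m ∈ Ioc M (2 * M), ‖(aa N m : ℂ) * (m : ℂ) ^ (-ρ)‖ ^ 2 := by
  have h1 : Ioc M (2 * M) ⊆ Icc 1 (2 * M) := by
    intro m hm
    rw [mem_Ioc] at hm
    rw [mem_Icc]
    omega
  rw [← sum_subset h1]
  · refine sum_congr rfl fun m hm => ?_
    rw [blk, if_pos hm]
  · intro m _ hm
    rw [blk, if_neg hm]
    simp

open Classical in
theorem count_le {R K : ℕ} {ρ : ℂ} (hρ : 0 < ρ.re) (hρ1 : ρ.re < 1) {B : ℝ}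
    (hB : ∀ f : ℕ, 2 ≤ f → f ≤ R → ∀ χ : DirichletCharacter ℂ f, χ ≠ 1 →
      ∀ n : ℕ, ‖∑ k ∈ Icc 1 n, χ (k : ZMod f)‖ ≤ B)
    (hsmall : (1 + ‖ρ‖ / ρ.re) * B * ((2 ^ K : ℕ) : ℝ) ^ (-ρ.re) *
      (((2 ^ K : ℕ) : ℝ) ^ (1 - ρ.re) / (1 - ρ.re)) ≤ 1 / 2) :
    ∑ r ∈ range R, (Set.ncard {χ : DirichletCharacter ℂ (r + 1) |
      χ.IsPrimitive ∧ DirichletCharacter.LFunction χ ρ = 0} : ℝ) ≤
      1 + 4 * (K * ∑ j ∈ range K, 6 * (((2 * 2 ^ (K + j) : ℕ) : ℝ) + (R : ℝ) ^ 2) *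
        ∑ m ∈ Ioc (2 ^ (K + j)) (2 * 2 ^ (K + j)),
          ‖(aa (2 ^ K) m : ℂ) * (m : ℂ) ^ (-ρ)‖ ^ 2) := by
  let T : (f : ℕ) → DirichletCharacter ℂ f → ℕ → ℂ := fun f χ j =>
    ∑ m ∈ Icc 1 (2 * 2 ^ (K + j)), blk (2 ^ K) ρ (2 ^ (K + j)) m * χ (m : ZMod f)
  let G : ℕ → ℝ := fun f => ∑ χ ∈ (univ : Finset (DirichletCharacter ℂ f)).filter
    (fun χ => χ.IsPrimitive), 4 * (K * ∑ j ∈ range K, ‖T f χ j‖ ^ 2)
  have hG0 : ∀ f, 0 ≤ G f := fun f => sum_nonneg fun χ _ => by positivity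
  have h1 : ∀ r ∈ range R, (Set.ncard {χ : DirichletCharacter ℂ (r + 1) |
      χ.IsPrimitive ∧ DirichletCharacter.LFunction χ ρ = 0} : ℝ) ≤
      (if r = 0 then 1 else 0) + G (r + 1) := by
    intro r hr
    rw [mem_range] at hr
    rcases Nat.eq_zero_or_pos r with h | h
    · subst h
      rw [if_pos rfl]
      have h2 : Set.ncard {χ : DirichletCharacter ℂ (0 + 1) |
        χ.IsPrimitive ∧ DirichletCharacter.LFunction χ ρ = 0} ≤ 1 := by
        rw [Set.ncard_le_one (Set.toFinite _)]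
        intro a _ b _
        have e1 : a = 1 := DirichletCharacter.level_one a
        have e2 : b = 1 := DirichletCharacter.level_one b
        rw [e1, e2]
      have h3 : ((Set.ncard {χ : DirichletCharacter ℂ (0 + 1) |
        χ.IsPrimitive ∧ DirichletCharacter.LFunction χ ρ = 0} : ℕ) : ℝ) ≤ 1 := by exact_mod_cast h2
      linarith [hG0 (0 + 1)]
    · rw [if_neg (by omega), zero_add]
      have h2 : {χ : DirichletCharacter ℂ (r + 1) |
        χ.IsPrimitive ∧ DirichletCharacter.LFunction χ ρ = 0} =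
        (((univ : Finset (DirichletCharacter ℂ (r + 1))).filter (fun χ => χ.IsPrimitive)).filter
          (fun χ => DirichletCharacter.LFunction χ ρ = 0) : Set (DirichletCharacter ℂ (r + 1))) := by
        ext χ
        simp
      rw [h2, Set.ncard_coe_finset]
      have h3 : ∀ χ ∈ ((univ : Finset (DirichletCharacter ℂ (r + 1))).filter
          (fun χ => χ.IsPrimitive)).filter (fun χ => DirichletCharacter.LFunction χ ρ = 0),
          (1 : ℝ) ≤ 4 * (K * ∑ j ∈ range K, ‖T (r + 1) χ j‖ ^ 2) := by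
        intro χ hχ
        rw [mem_filter, mem_filter] at hχ
        have hne : χ ≠ 1 := by
          rintro rfl
          have := hχ.1.2
          rw [DirichletCharacter.isPrimitive_def, DirichletCharacter.conductor_one] at this
          omega
        have h4 := detect hne hρ hρ1 (hB (r + 1) (by omega) (by omega) χ hne) hχ.2
          (N := 2 ^ K) Nat.one_le_two_pow hsmall
        rw [← pow_add, dyadic] at h4
        have h5 : ∑ j ∈ range K, ∑ m ∈ Ioc (2 ^ (K + j)) (2 ^ (K + j + 1)),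
            (aa (2 ^ K) m : ℂ) * (m : ℂ) ^ (-ρ) * χ (m : ZMod (r + 1)) =
            ∑ j ∈ range K, T (r + 1) χ j := by
          refine sum_congr rfl fun j _ => ?_
          rw [pow_succ', blk_sum]
        rw [h5] at h4
        have h6 : (1 / 2 : ℝ) ≤ ∑ j ∈ range K, ‖T (r + 1) χ j‖ := h4.trans (norm_sum_le _ _)
        have h7 := sq_sum_le_card_mul_sum_sq (s := range K) (f := fun j => ‖T (r + 1) χ j‖)
        rw [card_range] at h7
        have h8 : (1 / 2 : ℝ) ^ 2 ≤ (∑ j ∈ range K, ‖T (r + 1) χ j‖) ^ 2 :=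
          pow_le_pow_left₀ (by norm_num) h6 2
        linarith
      calc ((#(((univ : Finset (DirichletCharacter ℂ (r + 1))).filter
          (fun χ => χ.IsPrimitive)).filter (fun χ => DirichletCharacter.LFunction χ ρ = 0)) : ℕ) : ℝ) =
          ∑ χ ∈ ((univ : Finset (DirichletCharacter ℂ (r + 1))).filter
          (fun χ => χ.IsPrimitive)).filter (fun χ => DirichletCharacter.LFunction χ ρ = 0),
            (1 : ℝ) := by simp
        _ ≤ ∑ χ ∈ ((univ : Finset (DirichletCharacter ℂ (r + 1))).filter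
          (fun χ => χ.IsPrimitive)).filter (fun χ => DirichletCharacter.LFunction χ ρ = 0),
            4 * (K * ∑ j ∈ range K, ‖T (r + 1) χ j‖ ^ 2) := sum_le_sum h3
        _ ≤ G (r + 1) := sum_le_sum_of_subset_of_nonneg (filter_subset _ _)
            fun χ _ _ => by positivity
  have h2 : ∑ r ∈ range R, ((if r = 0 then (1 : ℝ) else 0) + G (r + 1)) ≤
      1 + ∑ f ∈ Icc 1 R, G f := by
    rw [sum_add_distrib]
    apply add_le_add
    · rw [sum_ite_eq' (range R) 0 (fun _ => (1 : ℝ))]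
      split_ifs <;> norm_num
    · apply le_of_eq
      refine sum_nbij (fun r => r + 1) ?_ ?_ ?_ ?_
      · intro r hr
        rw [mem_range] at hr
        rw [mem_Icc]
        omega
      · intro a _ b _ hab
        simpa using hab
      · intro f hf
        rw [mem_coe, mem_Icc] at hf
        refine ⟨f - 1, ?_, ?_⟩
        · rw [mem_coe, mem_range]; omega
        · simp only; omega
      · intro r _
        rfl
  have h3 : ∑ f ∈ Icc 1 R, G f ≤ 4 * (K * ∑ j ∈ range K, 6 * (((2 * 2 ^ (K + j) : ℕ) : ℝ) + (R : ℝ) ^ 2) *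
        ∑ m ∈ Ioc (2 ^ (K + j)) (2 * 2 ^ (K + j)),
          ‖(aa (2 ^ K) m : ℂ) * (m : ℂ) ^ (-ρ)‖ ^ 2) := by
    have h4 : ∑ f ∈ Icc 1 R, G f = 4 * (K * ∑ j ∈ range K, ∑ f ∈ Icc 1 R,
        ∑ χ ∈ (univ : Finset (DirichletCharacter ℂ f)).filter (fun χ => χ.IsPrimitive),
          ‖T f χ j‖ ^ 2) := by
      rw [sum_comm' (s := range K) (t := fun _ => Icc 1 R) (s' := fun _ => range K) (t' := Icc 1 R)
        (by intro x y; simp)]
      rw [mul_sum, mul_sum]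
      refine sum_congr rfl fun f _ => ?_
      show ∑ χ ∈ (univ : Finset (DirichletCharacter ℂ f)).filter
        (fun χ => χ.IsPrimitive), 4 * (K * ∑ j ∈ range K, ‖T f χ j‖ ^ 2) = _
      rw [← mul_sum, ← mul_sum, sum_comm]
    rw [h4]
    apply mul_le_mul_of_nonneg_left _ (by norm_num)
    apply mul_le_mul_of_nonneg_left _ (by positivity)
    refine sum_le_sum fun j _ => ?_
    rw [← blk_sq]
    refine le_trans ?_ (Pool.Agent.Helper112.mult_large_sieve (2 * 2 ^ (K + j)) R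
      (blk (2 ^ K) ρ (2 ^ (K + j))))
    refine sum_le_sum fun f hf => ?_
    rw [mem_Icc] at hf
    have h5 : (1 : ℝ) ≤ (f : ℝ) / (Nat.totient f : ℝ) := by
      have : 0 < Nat.totient f := Nat.totient_pos.2 (by omega)
      rw [le_div_iff₀ (by exact_mod_cast this), one_mul]
      exact_mod_cast Nat.totient_le f
    exact le_mul_of_one_le_left (sum_nonneg fun χ _ => by positivity) h5
  calc _ ≤ ∑ r ∈ range R, ((if r = 0 then (1 : ℝ) else 0) + G (r + 1)) := sum_le_sum h1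
    _ ≤ 1 + ∑ f ∈ Icc 1 R, G f := h2
    _ ≤ _ := by linarith

/-! ### the estimates -/

theorem block_bound {η : ℝ} (hη : 0 < η) {ρ : ℂ} (hρ : 0 < ρ.re) : ∃ C : ℝ, 0 < C ∧
    ∀ N M : ℕ, 1 ≤ M → ∑ m ∈ Ioc M (2 * M), ‖(aa N m : ℂ) * (m : ℂ) ^ (-ρ)‖ ^ 2 ≤
      C * (M : ℝ) ^ (1 + 2 * η - 2 * ρ.re) := by
  obtain ⟨Cd, hCd, hd⟩ := Pool.Agent.Helper112.divisor_bound η hη
  refine ⟨(Cd * 2 ^ η) ^ 2, by positivity, ?_⟩
  intro N M hM
  have hM0 : (0 : ℝ) < M := by exact_mod_cast hM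
  have h1 : ∀ m ∈ Ioc M (2 * M), ‖(aa N m : ℂ) * (m : ℂ) ^ (-ρ)‖ ^ 2 ≤
      (Cd * 2 ^ η) ^ 2 * (M : ℝ) ^ (2 * η - 2 * ρ.re) := by
    intro m hm
    rw [mem_Ioc] at hm
    have hm1 : 1 ≤ m := by omega
    have hm0 : (0 : ℝ) < m := by exact_mod_cast hm1
    have e1 : ‖(aa N m : ℂ)‖ ≤ Cd * ((2 : ℝ) ^ η * (M : ℝ) ^ η) := by
      rw [Complex.norm_intCast]
      have h2 : |((aa N m : ℤ) : ℝ)| ≤ (m.divisors.card : ℝ) := by
        have := aa_le (N := N) hm1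
        exact_mod_cast this
      refine h2.trans ((hd m hm1).trans ?_)
      apply mul_le_mul_of_nonneg_left _ hCd.le
      rw [← Real.mul_rpow (by norm_num) hM0.le]
      apply Real.rpow_le_rpow hm0.le _ hη.le
      exact_mod_cast hm.2
    have e2 : ‖(m : ℂ) ^ (-ρ)‖ ≤ (M : ℝ) ^ (-ρ.re) := by
      rw [Complex.norm_natCast_cpow_of_pos (by omega)]
      have e3 : (-ρ).re = -ρ.re := by simp
      rw [e3]
      apply Real.rpow_le_rpow_of_nonpos hM0 _ (by linarith)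
      exact_mod_cast hm.1.le
    have e4 : ‖(aa N m : ℂ) * (m : ℂ) ^ (-ρ)‖ ≤ (Cd * 2 ^ η) * (M : ℝ) ^ (η - ρ.re) := by
      rw [norm_mul]
      calc ‖(aa N m : ℂ)‖ * ‖(m : ℂ) ^ (-ρ)‖ ≤
          (Cd * ((2 : ℝ) ^ η * (M : ℝ) ^ η)) * (M : ℝ) ^ (-ρ.re) :=
            mul_le_mul e1 e2 (norm_nonneg _) (by positivity)
        _ = (Cd * 2 ^ η) * ((M : ℝ) ^ η * (M : ℝ) ^ (-ρ.re)) := by ring
        _ = _ := by rw [← Real.rpow_add hM0]; rfl
    calc ‖(aa N m : ℂ) * (m : ℂ) ^ (-ρ)‖ ^ 2 ≤ ((Cd * 2 ^ η) * (M : ℝ) ^ (η - ρ.re)) ^ 2 :=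
          pow_le_pow_left₀ (norm_nonneg _) e4 2
      _ = (Cd * 2 ^ η) ^ 2 * (M : ℝ) ^ (2 * η - 2 * ρ.re) := by
          rw [mul_pow, ← Real.rpow_mul_natCast hM0.le]
          congr 2
          push_cast
          ring
  calc ∑ m ∈ Ioc M (2 * M), ‖(aa N m : ℂ) * (m : ℂ) ^ (-ρ)‖ ^ 2 ≤
      ∑ m ∈ Ioc M (2 * M), (Cd * 2 ^ η) ^ 2 * (M : ℝ) ^ (2 * η - 2 * ρ.re) := sum_le_sum h1
    _ = (M : ℝ) * ((Cd * 2 ^ η) ^ 2 * (M : ℝ) ^ (2 * η - 2 * ρ.re)) := by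
        rw [sum_const, Nat.card_Ioc, nsmul_eq_mul]
        congr 2
        omega
    _ = (Cd * 2 ^ η) ^ 2 * (M : ℝ) ^ (1 + 2 * η - 2 * ρ.re) := by
        rw [show 1 + 2 * η - 2 * ρ.re = 1 + (2 * η - 2 * ρ.re) by ring, Real.rpow_add hM0,
          Real.rpow_one]
        ring

/-- the bound of the count, in terms of `N = 2 ^ K` -/
theorem count_N {η : ℝ} (hη : 0 < η) {ρ : ℂ} (hρ : 0 < ρ.re) (hρ1 : ρ.re < 1)
    (he : 1 + 2 * η - 2 * ρ.re ≤ 0) : ∃ C : ℝ, 0 < C ∧ ∀ (R K : ℕ) (B : ℝ),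
    (∀ f : ℕ, 2 ≤ f → f ≤ R → ∀ χ : DirichletCharacter ℂ f, χ ≠ 1 →
      ∀ n : ℕ, ‖∑ k ∈ Icc 1 n, χ (k : ZMod f)‖ ≤ B) →
    (1 + ‖ρ‖ / ρ.re) * B * ((2 ^ K : ℕ) : ℝ) ^ (-ρ.re) *
      (((2 ^ K : ℕ) : ℝ) ^ (1 - ρ.re) / (1 - ρ.re)) ≤ 1 / 2 →
    ∑ r ∈ range R, (Set.ncard {χ : DirichletCharacter ℂ (r + 1) |
      χ.IsPrimitive ∧ DirichletCharacter.LFunction χ ρ = 0} : ℝ) ≤
      1 + C * (K : ℝ) ^ 2 * (2 * ((2 : ℝ) ^ K) ^ (2 * (2 + 2 * η - 2 * ρ.re)) +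
        (R : ℝ) ^ 2 * ((2 : ℝ) ^ K) ^ (1 + 2 * η - 2 * ρ.re)) := by
  obtain ⟨C, hC, hb⟩ := block_bound hη hρ
  refine ⟨24 * C, by positivity, ?_⟩
  intro R K B hB hsmall
  refine (count_le hρ hρ1 hB hsmall).trans ?_
  have h2 : (1 : ℝ) ≤ (2 : ℝ) ^ K := one_le_pow₀ (by norm_num)
  have h1 : ∀ j ∈ range K, 6 * (((2 * 2 ^ (K + j) : ℕ) : ℝ) + (R : ℝ) ^ 2) *
        ∑ m ∈ Ioc (2 ^ (K + j)) (2 * 2 ^ (K + j)),
          ‖(aa (2 ^ K) m : ℂ) * (m : ℂ) ^ (-ρ)‖ ^ 2 ≤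
      6 * C * (2 * ((2 : ℝ) ^ K) ^ (2 * (2 + 2 * η - 2 * ρ.re)) +
        (R : ℝ) ^ 2 * ((2 : ℝ) ^ K) ^ (1 + 2 * η - 2 * ρ.re)) := by
    intro j hj
    rw [mem_range] at hj
    have h3 := hb (2 ^ K) (2 ^ (K + j)) Nat.one_le_two_pow
    set M : ℝ := ((2 ^ (K + j) : ℕ) : ℝ) with hM
    have hMe : M = (2 : ℝ) ^ (K + j) := by rw [hM]; push_cast; rfl
    have hM0 : 0 < M := by rw [hMe]; positivity
    have hM1 : (2 : ℝ) ^ K ≤ M := by
      rw [hMe]; exact pow_le_pow_right₀ (by norm_num) (by omega)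
    have hM2 : M ≤ ((2 : ℝ) ^ K) ^ 2 := by
      rw [hMe, ← pow_mul]; exact pow_le_pow_right₀ (by norm_num) (by omega)
    have e0 : ((2 * 2 ^ (K + j) : ℕ) : ℝ) = 2 * M := by rw [hM]; push_cast; ring
    rw [e0]
    have e1 : M ^ (1 + 2 * η - 2 * ρ.re) ≤ ((2 : ℝ) ^ K) ^ (1 + 2 * η - 2 * ρ.re) :=
      Real.rpow_le_rpow_of_nonpos (by positivity) hM1 he
    have e2 : M * M ^ (1 + 2 * η - 2 * ρ.re) ≤ ((2 : ℝ) ^ K) ^ (2 * (2 + 2 * η - 2 * ρ.re)) := by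
      have e3 : M * M ^ (1 + 2 * η - 2 * ρ.re) = M ^ (2 + 2 * η - 2 * ρ.re) := by
        rw [show 2 + 2 * η - 2 * ρ.re = 1 + (1 + 2 * η - 2 * ρ.re) by ring, Real.rpow_add hM0,
          Real.rpow_one]
      rw [e3]
      calc M ^ (2 + 2 * η - 2 * ρ.re) ≤ (((2 : ℝ) ^ K) ^ 2) ^ (2 + 2 * η - 2 * ρ.re) :=
            Real.rpow_le_rpow hM0.le hM2 (by linarith)
        _ = _ := by
            rw [← Real.rpow_natCast, ← Real.rpow_mul (by positivity)]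
            norm_num
    calc 6 * (2 * M + (R : ℝ) ^ 2) * ∑ m ∈ Ioc (2 ^ (K + j)) (2 * 2 ^ (K + j)),
          ‖(aa (2 ^ K) m : ℂ) * (m : ℂ) ^ (-ρ)‖ ^ 2 ≤
        6 * (2 * M + (R : ℝ) ^ 2) * (C * M ^ (1 + 2 * η - 2 * ρ.re)) :=
          mul_le_mul_of_nonneg_left h3 (by positivity)
      _ = 6 * C * (2 * (M * M ^ (1 + 2 * η - 2 * ρ.re)) +
          (R : ℝ) ^ 2 * M ^ (1 + 2 * η - 2 * ρ.re)) := by ring
      _ ≤ _ := by
          apply mul_le_mul_of_nonneg_left _ (by positivity)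
          exact add_le_add (mul_le_mul_of_nonneg_left e2 (by norm_num))
            (mul_le_mul_of_nonneg_left e1 (by positivity))
  have h3 := sum_le_sum h1
  rw [sum_const, card_range, nsmul_eq_mul] at h3
  have h4 : (0 : ℝ) ≤ K := Nat.cast_nonneg K
  have h5 := mul_le_mul_of_nonneg_left h3 h4
  linarith

set_option maxHeartbeats 1000000 in
theorem e1 : S_E1 := by
  intro ρ h7 h1
  have hρ : 0 < ρ.re := by linarith
  set β := ρ.re with hβ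
  obtain ⟨x, hx1, hx2⟩ : ∃ x : ℝ, 1 / (2 * (2 * β - 1)) < x ∧ x < 3 / (8 * (1 - β)) := by
    apply _root_.exists_between
    rw [div_lt_div_iff₀ (by linarith) (by linarith)]
    linarith
  have hx0 : 0 < x := lt_trans (by apply div_pos one_pos; linarith) hx1
  have g1 : 0 < 3 / 2 - 4 * x * (1 - β) := by
    rw [lt_div_iff₀ (by linarith)] at hx2
    linarith
  have g2 : 0 < x * (2 * β - 1) - 1 / 2 := by
    rw [div_lt_iff₀ (by linarith)] at hx1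
    linarith
  obtain ⟨m, hm0, hm1, hm2⟩ : ∃ m : ℝ, 0 < m ∧ m ≤ 3 / 2 - 4 * x * (1 - β) ∧
      m ≤ x * (2 * β - 1) - 1 / 2 :=
    ⟨min _ _, lt_min g1 g2, min_le_left _ _, min_le_right _ _⟩
  obtain ⟨η, hη⟩ : ∃ η : ℝ, η * (8 * x + 8) = m := ⟨m / (8 * x + 8), by field_simp⟩
  have hη0 : 0 < η := by
    by_contra h
    push Not at h
    nlinarith
  have hm3 : m ≤ 3 / 2 := by nlinarith
  have hηx : 0 < η * x := mul_pos hη0 hx0
  have hη' : 8 * (η * x) + 8 * η = m := by linarith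
  have hη1 : η ≤ 3 / 16 := by linarith
  have he : 1 + 2 * η - 2 * ρ.re ≤ 0 := by rw [← hβ]; linarith
  obtain ⟨C, hC, hcount⟩ := count_N hη0 hρ h1 he
  obtain ⟨Cp, hCp, hPV⟩ := Pool.Agent.H38R2.CG.T_PV
  -- the choice of K
  have hK : ∀ R : ℕ, 1 ≤ R → ∃ K : ℕ, (R : ℝ) ^ x ≤ (2 : ℝ) ^ K ∧ (2 : ℝ) ^ K ≤ 2 * (R : ℝ) ^ x ∧
      (K : ℝ) ≤ (x / (η * Real.log 2) + 1) * (R : ℝ) ^ η := by
    intro R hR
    have hR0 : (0 : ℝ) < R := by exact_mod_cast hR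
    have hR1 : (1 : ℝ) ≤ R := by exact_mod_cast hR
    have hlb : 0 ≤ x * Real.logb 2 R := mul_nonneg hx0.le (Real.logb_nonneg (by norm_num) hR1)
    have e1 : (R : ℝ) ^ x = (2 : ℝ) ^ (x * Real.logb 2 R) := by
      rw [mul_comm, Real.rpow_mul (by norm_num), Real.rpow_logb (by norm_num) (by norm_num) hR0]
    refine ⟨⌈x * Real.logb 2 R⌉₊, ?_, ?_, ?_⟩
    · rw [e1, ← Real.rpow_natCast]
      exact Real.rpow_le_rpow_of_exponent_le (by norm_num) (Nat.le_ceil _)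
    · rw [e1, ← Real.rpow_natCast]
      calc (2 : ℝ) ^ ((⌈x * Real.logb 2 R⌉₊ : ℕ) : ℝ) ≤ 2 ^ (x * Real.logb 2 R + 1) :=
            Real.rpow_le_rpow_of_exponent_le (by norm_num) (Nat.ceil_lt_add_one hlb).le
        _ = 2 * 2 ^ (x * Real.logb 2 R) := by
            rw [Real.rpow_add_one (by norm_num)]
            ring
    · refine (Nat.ceil_lt_add_one hlb).le.trans ?_
      have h2 : Real.log R ≤ (R : ℝ) ^ η / η := Real.log_le_rpow_div hR0.le hη0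
      have h3 : (1 : ℝ) ≤ (R : ℝ) ^ η := Real.one_le_rpow hR1 hη0.le
      have hl2 : 0 < Real.log 2 := Real.log_pos (by norm_num)
      have h4 : x * Real.logb 2 R ≤ x / (η * Real.log 2) * (R : ℝ) ^ η := by
        rw [Real.logb, mul_div_assoc', div_mul_eq_mul_div, div_le_div_iff₀ hl2 (by positivity)]
        have : Real.log R * η ≤ (R : ℝ) ^ η := by
          rw [le_div_iff₀ hη0] at h2
          exact h2
        nlinarith [mul_le_mul_of_nonneg_left this (by positivity : 0 ≤ x * Real.log 2)]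
      linarith
  -- the smallness for large R
  set c4 : ℝ := (1 + ‖ρ‖ / β) * (Cp / η) / (1 - β) with hc4
  have hc40 : 0 ≤ c4 := by
    rw [hc4]
    apply div_nonneg _ (by linarith)
    positivity
  have hlim : ∃ R₀ : ℕ, ∀ R : ℕ, R₀ ≤ R → c4 * (R : ℝ) ^ (-(m - η)) ≤ 1 / 2 := by
    have hpos : 0 < m - η := by linarith
    have h2 : Filter.Tendsto (fun R : ℕ => c4 * (R : ℝ) ^ (-(m - η))) Filter.atTop (nhds (c4 * 0)) :=
      ((tendsto_rpow_neg_atTop hpos).comp tendsto_natCast_atTop_atTop).const_mul c4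
    rw [mul_zero] at h2
    have h3 := h2.eventually (eventually_le_nhds (by norm_num : (0 : ℝ) < 1 / 2))
    exact Filter.eventually_atTop.1 h3
  obtain ⟨R₀, hR₀⟩ := hlim
  set c5 : ℝ := x / (η * Real.log 2) + 1 with hc5
  have hc50 : 0 < c5 := by
    have hl2 : 0 < Real.log 2 := Real.log_pos (by norm_num)
    rw [hc5]
    positivity
  set S : ℕ → ℝ := fun R => ∑ r ∈ range R, (Set.ncard {χ : DirichletCharacter ℂ (r + 1) |
    χ.IsPrimitive ∧ DirichletCharacter.LFunction χ ρ = 0} : ℝ) with hS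
  have hS0 : ∀ R, 0 ≤ S R := fun R => sum_nonneg fun r _ => Nat.cast_nonneg _
  refine ⟨m / 2, by linarith, S R₀ + 1 + C * c5 ^ 2 * 33, ?_⟩
  intro R hR
  have hR0 : (0 : ℝ) < R := by exact_mod_cast hR
  have hR1 : (1 : ℝ) ≤ R := by exact_mod_cast hR
  have hδ : (1 : ℝ) ≤ (R : ℝ) ^ (3 / 2 - m / 2) := Real.one_le_rpow hR1 (by linarith)
  show S R ≤ _
  rcases le_total R R₀ with hle | hge
  · have h2 : S R ≤ S R₀ := sum_le_sum_of_subset_of_nonneg (range_mono hle)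
      fun r _ _ => Nat.cast_nonneg _
    have h3 : 0 ≤ C * c5 ^ 2 * 33 := by positivity
    have h4 : S R₀ ≤ S R₀ + 1 + C * c5 ^ 2 * 33 := by linarith
    have h5 : 0 ≤ S R₀ + 1 + C * c5 ^ 2 * 33 := by linarith [hS0 R₀]
    nlinarith
  · obtain ⟨K, hK1, hK2, hK3⟩ := hK R hR
    have hN0 : (0 : ℝ) < (2 : ℝ) ^ K := by positivity
    have hB : ∀ f : ℕ, 2 ≤ f → f ≤ R → ∀ χ : DirichletCharacter ℂ f, χ ≠ 1 →
        ∀ n : ℕ, ‖∑ k ∈ Icc 1 n, χ (k : ZMod f)‖ ≤ Cp / η * (R : ℝ) ^ (1 / 2 + η) := by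
      intro f hf hfR χ hχ n
      have h2 := hPV f χ hf hχ 0 n
      have h3 : Ioc 0 n = Icc 1 n := by
        ext k; simp only [mem_Ioc, mem_Icc]; omega
      rw [h3] at h2
      refine h2.trans ?_
      have hf0 : (0 : ℝ) < f := by exact_mod_cast (by omega : 0 < f)
      have hf1 : (1 : ℝ) ≤ f := by exact_mod_cast (by omega : 1 ≤ f)
      have hfR' : (f : ℝ) ≤ R := by exact_mod_cast hfR
      have h4 : √(f : ℝ) ≤ (R : ℝ) ^ (1 / 2 : ℝ) := by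
        rw [Real.sqrt_eq_rpow]
        exact Real.rpow_le_rpow hf0.le hfR' (by norm_num)
      have h5 : Real.log f ≤ (R : ℝ) ^ η / η :=
        (Real.log_le_rpow_div hf0.le hη0).trans (by
          apply div_le_div_of_nonneg_right _ hη0.le
          exact Real.rpow_le_rpow hf0.le hfR' hη0.le)
      calc Cp * √(f : ℝ) * Real.log f ≤ Cp * (R : ℝ) ^ (1 / 2 : ℝ) * ((R : ℝ) ^ η / η) := by
            apply mul_le_mul (mul_le_mul_of_nonneg_left h4 hCp.le) h5 (Real.log_nonneg hf1)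
            positivity
        _ = _ := by rw [Real.rpow_add hR0]; ring
    have hsm : (1 + ‖ρ‖ / ρ.re) * (Cp / η * (R : ℝ) ^ (1 / 2 + η)) * ((2 ^ K : ℕ) : ℝ) ^ (-ρ.re) *
      (((2 ^ K : ℕ) : ℝ) ^ (1 - ρ.re) / (1 - ρ.re)) ≤ 1 / 2 := by
      refine le_trans ?_ (hR₀ R hge)
      rw [← hβ]
      have e0 : ((2 ^ K : ℕ) : ℝ) = (2 : ℝ) ^ K := by push_cast; rfl
      rw [e0]
      have e2 : (1 + ‖ρ‖ / β) * (Cp / η * (R : ℝ) ^ (1 / 2 + η)) * ((2 : ℝ) ^ K) ^ (-β) *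
          (((2 : ℝ) ^ K) ^ (1 - β) / (1 - β)) =
          c4 * ((R : ℝ) ^ (1 / 2 + η) * ((2 : ℝ) ^ K) ^ (1 - 2 * β)) := by
        rw [hc4, show 1 - 2 * β = -β + (1 - β) by ring, Real.rpow_add hN0]
        ring
      rw [e2]
      apply mul_le_mul_of_nonneg_left _ hc40
      have e3 : ((2 : ℝ) ^ K) ^ (1 - 2 * β) ≤ ((R : ℝ) ^ x) ^ (1 - 2 * β) :=
        Real.rpow_le_rpow_of_nonpos (by positivity) hK1 (by linarith)
      calc (R : ℝ) ^ (1 / 2 + η) * ((2 : ℝ) ^ K) ^ (1 - 2 * β) ≤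
          (R : ℝ) ^ (1 / 2 + η) * ((R : ℝ) ^ x) ^ (1 - 2 * β) :=
            mul_le_mul_of_nonneg_left e3 (by positivity)
        _ = (R : ℝ) ^ (1 / 2 + η + x * (1 - 2 * β)) := by
            rw [← Real.rpow_mul hR0.le, ← Real.rpow_add hR0]
        _ ≤ _ := Real.rpow_le_rpow_of_exponent_le hR1 (by linarith)
    have h2 := hcount R K _ hB hsm
    rw [← hβ] at h2
    refine h2.trans ?_
    have hK4 : (K : ℝ) ^ 2 ≤ c5 ^ 2 * (R : ℝ) ^ (2 * η) := by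
      calc (K : ℝ) ^ 2 ≤ (c5 * (R : ℝ) ^ η) ^ 2 := pow_le_pow_left₀ (Nat.cast_nonneg K) hK3 2
        _ = _ := by
          rw [mul_pow, ← Real.rpow_mul_natCast hR0.le]
          congr 2
          push_cast
          ring
    have e1 : ((2 : ℝ) ^ K) ^ (2 * (2 + 2 * η - 2 * β)) ≤
        16 * (R : ℝ) ^ (x * (2 * (2 + 2 * η - 2 * β))) := by
      have hq0 : 0 ≤ 2 * (2 + 2 * η - 2 * β) := by linarith
      calc ((2 : ℝ) ^ K) ^ (2 * (2 + 2 * η - 2 * β)) ≤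
          (2 * (R : ℝ) ^ x) ^ (2 * (2 + 2 * η - 2 * β)) := Real.rpow_le_rpow hN0.le hK2 hq0
        _ = 2 ^ (2 * (2 + 2 * η - 2 * β)) * (R : ℝ) ^ (x * (2 * (2 + 2 * η - 2 * β))) := by
            rw [Real.mul_rpow (by norm_num) (by positivity), ← Real.rpow_mul hR0.le]
        _ ≤ _ := by
            apply mul_le_mul_of_nonneg_right _ (by positivity)
            calc (2 : ℝ) ^ (2 * (2 + 2 * η - 2 * β)) ≤ 2 ^ (4 : ℝ) :=
                  Real.rpow_le_rpow_of_exponent_le (by norm_num) (by linarith)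
              _ = 16 := by norm_num
    have e2 : ((2 : ℝ) ^ K) ^ (1 + 2 * η - 2 * β) ≤ (R : ℝ) ^ (x * (1 + 2 * η - 2 * β)) := by
      rw [Real.rpow_mul hR0.le]
      exact Real.rpow_le_rpow_of_nonpos (by positivity) hK1 he
    have e3 : (R : ℝ) ^ (2 * η) * (R : ℝ) ^ (x * (2 * (2 + 2 * η - 2 * β))) ≤
        (R : ℝ) ^ (3 / 2 - m / 2) := by
      rw [← Real.rpow_add hR0]
      apply Real.rpow_le_rpow_of_exponent_le hR1
      linarith
    have e4 : (R : ℝ) ^ (2 * η) * ((R : ℝ) ^ 2 * (R : ℝ) ^ (x * (1 + 2 * η - 2 * β))) ≤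
        (R : ℝ) ^ (3 / 2 - m / 2) := by
      rw [← Real.rpow_natCast (R : ℝ) 2, ← Real.rpow_add hR0, ← Real.rpow_add hR0]
      apply Real.rpow_le_rpow_of_exponent_le hR1
      push_cast
      linarith
    have hCc : 0 ≤ C * c5 ^ 2 := by positivity
    calc 1 + C * (K : ℝ) ^ 2 * (2 * ((2 : ℝ) ^ K) ^ (2 * (2 + 2 * η - 2 * β)) +
          (R : ℝ) ^ 2 * ((2 : ℝ) ^ K) ^ (1 + 2 * η - 2 * β)) ≤
        1 + C * (c5 ^ 2 * (R : ℝ) ^ (2 * η)) *
          (2 * (16 * (R : ℝ) ^ (x * (2 * (2 + 2 * η - 2 * β)))) +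
          (R : ℝ) ^ 2 * (R : ℝ) ^ (x * (1 + 2 * η - 2 * β))) := by
          gcongr
      _ = 1 + C * c5 ^ 2 * (32 * ((R : ℝ) ^ (2 * η) * (R : ℝ) ^ (x * (2 * (2 + 2 * η - 2 * β)))) +
          (R : ℝ) ^ (2 * η) * ((R : ℝ) ^ 2 * (R : ℝ) ^ (x * (1 + 2 * η - 2 * β)))) := by ring
      _ ≤ 1 + C * c5 ^ 2 * (32 * (R : ℝ) ^ (3 / 2 - m / 2) + (R : ℝ) ^ (3 / 2 - m / 2)) := by
          gcongr
      _ = 1 + C * c5 ^ 2 * 33 * (R : ℝ) ^ (3 / 2 - m / 2) := by ring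
      _ ≤ (S R₀ + 1 + C * c5 ^ 2 * 33) * (R : ℝ) ^ (3 / 2 - m / 2) := by
          linarith [mul_nonneg (hS0 R₀) (by linarith : (0 : ℝ) ≤ (R : ℝ) ^ (3 / 2 - m / 2))]

end Pool.Agent.T9h85.LZ
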